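import Pool.Agent.Helper51.LT.St

/-!
# LT, module D3: distortion in a disc with any centre
-/

set_option autoImplicit false

open Complex Set Metric

namespace Pool.Agent.Helper92.LT

open Pool.Agent.Helper51.LT

/-- D3. -/
theorem hD3 (hD2 : StD2) : StD3 := by
  intro f z w d hd hf hw
  have hmaps : MapsTo (fun x : ℂ => z + x) (ball 0 d) (ball z d) := by
    intro x hx
    simpa [mem_ball, dist_eq_norm] using hx
  have hg : Un (fun x : ℂ => f (z + x)) (ball 0 d) := by
    refine ⟨?_, ?_⟩
    · exact hf.1.comp ((differentiable_id.const_add z).differentiableOn) hmaps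
    · intro x hx y hy hxy
      have := hf.2 (hmaps hx) (hmaps hy) hxy
      exact add_left_cancel this
  have h := hD2 (fun x : ℂ => f (z + x)) d (w - z) 0 hd hg hw le_rfl zero_le_one
  have e1 : ∀ x : ℂ, deriv (fun x : ℂ => f (z + x)) x = deriv f (z + x) := by
    intro x
    exact deriv_comp_const_add f z x
  simp only [e1, Complex.ofReal_zero, zero_mul, add_zero, sub_zero, add_sub_cancel] at h
  exact ⟨h.2, h.1⟩

end Pool.Agent.Helper92.LT
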