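import Pool.Agent.Helper69.LT.St

/-!
# Project LT (MP_65faa7), module Nl: calculus of the norm of dual numbers
-/

set_option autoImplicit false

open scoped BigOperators ENNReal
open Pool.LE Pool.NL

namespace Pool.LT

namespace NlM

theorem ofReal_abs_add (x y : ℝ) :
    ENNReal.ofReal |x + y| ≤ ENNReal.ofReal |x| + ENNReal.ofReal |y| := by
  rw [← ENNReal.ofReal_add (abs_nonneg _) (abs_nonneg _)]
  exact ENNReal.ofReal_le_ofReal (abs_add_le _ _)

theorem ofReal_abs_mul (x y : ℝ) :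
    ENNReal.ofReal |x * y| = ENNReal.ofReal |x| * ENNReal.ofReal |y| := by
  rw [abs_mul, ENNReal.ofReal_mul (abs_nonneg _)]

theorem Nl_zero (lam : ENNReal) : Nl lam 0 = 0 := by
  unfold Nl
  rw [TrivSqZeroExt.fst_zero, TrivSqZeroExt.snd_zero]
  simp

theorem Nl_one (lam : ENNReal) : Nl lam 1 = 1 := by
  unfold Nl
  rw [TrivSqZeroExt.fst_one, TrivSqZeroExt.snd_one]
  simp

theorem Nl_add (lam : ENNReal) (a b : DualNumber ℝ) : Nl lam (a + b) ≤ Nl lam a + Nl lam b := by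
  unfold Nl
  rw [TrivSqZeroExt.fst_add, TrivSqZeroExt.snd_add]
  calc ENNReal.ofReal |a.fst + b.fst| + lam * ENNReal.ofReal |a.snd + b.snd|
      ≤ (ENNReal.ofReal |a.fst| + ENNReal.ofReal |b.fst|) +
          lam * (ENNReal.ofReal |a.snd| + ENNReal.ofReal |b.snd|) :=
        add_le_add (ofReal_abs_add _ _) (mul_le_mul_right (ofReal_abs_add _ _) _)
    _ = _ := by ring

theorem Nl_neg (lam : ENNReal) (a : DualNumber ℝ) : Nl lam (-a) = Nl lam a := by
  unfold Nl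
  rw [TrivSqZeroExt.fst_neg, TrivSqZeroExt.snd_neg, abs_neg, abs_neg]

theorem Nl_sub (lam : ENNReal) (a b : DualNumber ℝ) : Nl lam (a - b) ≤ Nl lam a + Nl lam b := by
  rw [sub_eq_add_neg, ← Nl_neg lam b]
  exact Nl_add lam a (-b)

theorem Nl_mul (lam : ENNReal) (a b : DualNumber ℝ) : Nl lam (a * b) ≤ Nl lam a * Nl lam b := by
  have h1 : (a * b).fst = a.fst * b.fst := TrivSqZeroExt.fst_mul a b
  have h2 : (a * b).snd = a.fst * b.snd + b.fst * a.snd := by
    rw [TrivSqZeroExt.snd_mul, op_smul_eq_smul, smul_eq_mul, smul_eq_mul]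
  unfold Nl
  rw [h1, h2]
  calc ENNReal.ofReal |a.fst * b.fst| + lam * ENNReal.ofReal |a.fst * b.snd + b.fst * a.snd|
      ≤ ENNReal.ofReal |a.fst * b.fst| +
          lam * (ENNReal.ofReal |a.fst * b.snd| + ENNReal.ofReal |b.fst * a.snd|) :=
        add_le_add le_rfl (mul_le_mul_right (ofReal_abs_add _ _) _)
    _ = ENNReal.ofReal |a.fst| * ENNReal.ofReal |b.fst| +
          lam * (ENNReal.ofReal |a.fst| * ENNReal.ofReal |b.snd| +
            ENNReal.ofReal |b.fst| * ENNReal.ofReal |a.snd|) := by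
        rw [ofReal_abs_mul, ofReal_abs_mul, ofReal_abs_mul]
    _ ≤ ENNReal.ofReal |a.fst| * ENNReal.ofReal |b.fst| +
          lam * (ENNReal.ofReal |a.fst| * ENNReal.ofReal |b.snd| +
            ENNReal.ofReal |b.fst| * ENNReal.ofReal |a.snd|) +
          (lam * ENNReal.ofReal |a.snd|) * (lam * ENNReal.ofReal |b.snd|) := le_self_add
    _ = _ := by ring

theorem Nl_smul (lam : ENNReal) (c : ℝ) (a : DualNumber ℝ) (hc : 0 ≤ c) :
    Nl lam (c • a) = ENNReal.ofReal c * Nl lam a := by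
  have h1 : (c • a).fst = c * a.fst := rfl
  have h2 : (c • a).snd = c * a.snd := rfl
  unfold Nl
  rw [h1, h2, ofReal_abs_mul, ofReal_abs_mul, abs_of_nonneg hc]
  ring

theorem Nl_pow (lam : ENNReal) (N : ℕ) (a : DualNumber ℝ) :
    Nl lam ((-1) ^ N * a) = Nl lam a := by
  rcases neg_one_pow_eq_or (DualNumber ℝ) N with h | h
  · rw [h, one_mul]
  · rw [h, neg_one_mul, Nl_neg]

theorem Nl_sum (lam : ENNReal) (ι : Type) (s : Finset ι) (f : ι → DualNumber ℝ) :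
    Nl lam (∑ i ∈ s, f i) ≤ ∑ i ∈ s, Nl lam (f i) := by
  classical
  induction s using Finset.induction_on with
  | empty => simp [Nl_zero]
  | insert i s hi ih =>
    rw [Finset.sum_insert hi, Finset.sum_insert hi]
    exact (Nl_add lam _ _).trans (add_le_add le_rfl ih)

theorem wt_nonneg {V : Type} [DecidableEq V] (E : Finset (Sym2 V)) (p : ℝ) (ω : Finset (Sym2 V))
    (h0 : 0 ≤ p) (h1 : p ≤ 1) : 0 ≤ wt E p ω :=
  mul_nonneg (pow_nonneg h0 _) (pow_nonneg (sub_nonneg.2 h1) _)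

theorem Nl_Ex (lam : ENNReal) (V : Type) [DecidableEq V] (E : Finset (Sym2 V)) (p : ℝ)
    (f : Finset (Sym2 V) → DualNumber ℝ) (h0 : 0 ≤ p) (h1 : p ≤ 1) :
    Nl lam (Ex E p f) ≤ ExE E p (fun ω => Nl lam (f ω)) := by
  unfold Ex ExE
  refine (Nl_sum lam _ _ _).trans (Finset.sum_le_sum fun ω _ => ?_)
  exact (Nl_smul lam _ _ (wt_nonneg E p ω h0 h1)).le

theorem fst_Ex (V : Type) [DecidableEq V] (E : Finset (Sym2 V)) (p : ℝ)
    (f : Finset (Sym2 V) → DualNumber ℝ) : (Ex E p f).fst = Ex E p (fun ω => (f ω).fst) := by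
  unfold Ex
  rw [TrivSqZeroExt.fst_sum]
  rfl

theorem snd_Ex (V : Type) [DecidableEq V] (E : Finset (Sym2 V)) (p : ℝ)
    (f : Finset (Sym2 V) → DualNumber ℝ) : (Ex E p f).snd = Ex E p (fun ω => (f ω).snd) := by
  unfold Ex
  rw [TrivSqZeroExt.snd_sum]
  rfl

end NlM

theorem hNl : SNl := fun lam =>
  ⟨NlM.Nl_zero lam, NlM.Nl_one lam, NlM.Nl_add lam, NlM.Nl_sub lam, NlM.Nl_mul lam,
    NlM.Nl_smul lam, NlM.Nl_pow lam, NlM.Nl_sum lam,
    fun V _ E p f h0 h1 => NlM.Nl_Ex lam V E p f h0 h1,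
    fun V _ E p f => ⟨NlM.fst_Ex V E p f, NlM.snd_Ex V E p f⟩⟩

end Pool.LT
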